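import Pool.Agent.W335.BMX.Odd

/-!
# The Hasse principle for ternary quadratic forms over the rational numbers
-/

namespace Pool.Agent.Y804.Conic

open Pool.Agent.W313.BMX

section field
variable {F : Type} [Field F]

theorem splits_swap {a b : F} (h : Splits a b) : Splits b a := by
  obtain ⟨x, y, z, h0, h1⟩ := h
  exact ⟨y, x, z, by tauto, by rw [h1]; ring⟩

theorem splits_of_mul_sq {a b u : F} (hu : u ≠ 0) (h : Splits a (u * u * b)) : Splits a b := by
  obtain ⟨x, y, z, h0, h1⟩ := h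
  refine ⟨x, u * y, z, ?_, by rw [h1]; ring⟩
  rcases h0 with h0 | h0 | h0
  · exact Or.inl h0
  · exact Or.inr (Or.inl (mul_ne_zero hu h0))
  · exact Or.inr (Or.inr h0)

theorem splits_mul_sq' {a b u : F} (hu : u ≠ 0) (h : Splits a b) : Splits a (u * u * b) := by
  obtain ⟨x, y, z, h0, h1⟩ := h
  refine ⟨x, y / u, z, ?_, by rw [h1]; field_simp⟩
  rcases h0 with h0 | h0 | h0
  · exact Or.inl h0
  · exact Or.inr (Or.inl (div_ne_zero h0 hu))
  · exact Or.inr (Or.inr h0)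

theorem splits_norm {a b b' t : F} (h : b * b' = t ^ 2 - a) (hb : b ≠ 0)
    (hs : Splits a b) : Splits a b' := by
  obtain ⟨x, y, z, h0, h1⟩ := hs
  by_cases hy : y = 0
  · refine ⟨x, 0, z, ?_, ?_⟩
    · rcases h0 with h0 | h0 | h0
      · exact Or.inl h0
      · exact absurd hy h0
      · exact Or.inr (Or.inr h0)
    · rw [h1, hy]; ring
  · refine ⟨z + x * t, b * y, z * t + a * x, Or.inr (Or.inl (mul_ne_zero hb hy)), ?_⟩
    have e : (z * t + a * x) ^ 2 - a * (z + x * t) ^ 2 = (z ^ 2 - a * x ^ 2) * (t ^ 2 - a) := by ring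
    have e2 : (z ^ 2 - a * x ^ 2) = b * y ^ 2 := by rw [h1]; ring
    rw [e2, ← h] at e
    linear_combination e

end field

theorem sq_crt (c : ℤ) {n : ℕ} : Squarefree n →
    (∀ p : ℕ, p.Prime → p ∣ n → ∃ s : ℤ, (p : ℤ) ∣ s ^ 2 - c) →
    ∃ s : ℤ, (n : ℤ) ∣ s ^ 2 - c := by
  induction n using induction_on_primes with
  | zero => intro h; exact absurd h not_squarefree_zero
  | one => intro _ _; exact ⟨0, by simp⟩
  | prime_mul p a hp ih =>
    intro hsf h
    obtain ⟨hcop, -, hsa⟩ := Nat.squarefree_mul_iff.1 hsf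
    obtain ⟨s2, h2⟩ := ih hsa fun q hq hqa => h q hq (hqa.mul_left p)
    obtain ⟨s1, h1⟩ := h p hp (dvd_mul_right p a)
    have hc : IsCoprime (p : ℤ) (a : ℤ) := Nat.isCoprime_iff_coprime.2 hcop
    obtain ⟨u, v, huv⟩ := hc
    refine ⟨s1 * (v * a) + s2 * (u * p), ?_⟩
    push_cast
    have hc : IsCoprime (p : ℤ) (a : ℤ) := ⟨u, v, huv⟩
    refine hc.mul_dvd ?_ ?_
    · have e : s1 * (v * a) + s2 * (u * p) = s1 + p * (u * (s2 - s1)) := by
        linear_combination s1 * huv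
      rw [e]
      have : (s1 + p * (u * (s2 - s1))) ^ 2 - c = (s1 ^ 2 - c)
        + p * (2 * s1 * (u * (s2 - s1)) + p * (u * (s2 - s1)) ^ 2) := by ring
      rw [this]
      exact dvd_add h1 (dvd_mul_right _ _)
    · have e : s1 * (v * a) + s2 * (u * p) = s2 + a * (v * (s1 - s2)) := by
        linear_combination s2 * huv
      rw [e]
      have : (s2 + a * (v * (s1 - s2))) ^ 2 - c = (s2 ^ 2 - c)
        + a * (2 * s2 * (v * (s1 - s2)) + a * (v * (s1 - s2)) ^ 2) := by ring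
      rw [this]
      exact dvd_add h2 (dvd_mul_right _ _)

theorem sq_lift (c : ℤ) {p : ℕ} [NeZero p] (h : IsSquare (c : ZMod p)) :
    ∃ s : ℤ, (p : ℤ) ∣ s ^ 2 - c := by
  obtain ⟨w, hw⟩ := h
  refine ⟨(w.val : ℤ), ?_⟩
  rw [← ZMod.intCast_zmod_eq_zero_iff_dvd]
  push_cast
  rw [ZMod.natCast_val, ZMod.cast_id', id, hw]
  ring

/-- the local step -/
theorem sq_at_prime {a b : ℤ} (hb : Squarefree b) {p : ℕ} (hp : p.Prime) (hpb : (p : ℤ) ∣ b)
    (h : ∀ (p : ℕ) (_ : Fact p.Prime), Splits ((a : ℤ) : ℚ_[p]) ((b : ℤ) : ℚ_[p])) :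
    ∃ s : ℤ, (p : ℤ) ∣ s ^ 2 - a := by
  have hF : Fact p.Prime := ⟨hp⟩
  by_cases hpa : (p : ℤ) ∣ a
  · exact ⟨0, by simpa using hpa⟩
  by_cases hp2 : p = 2
  · refine ⟨a, ?_⟩
    rw [hp2]
    have : a ^ 2 - a = a * (a - 1) := by ring
    rw [this]
    rcases Int.even_or_odd a with ha | ha
    · exact Dvd.dvd.mul_right ha.two_dvd _
    · refine Dvd.dvd.mul_left ?_ _
      obtain ⟨k, hk⟩ := ha
      exact ⟨k, by rw [hk]; push_cast; ring⟩
  obtain ⟨m, hm⟩ := hpb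
  have hpm : ¬ (p : ℤ) ∣ m := by
    rintro ⟨k, hk⟩
    have h1 := hb (p : ℤ) ⟨k, by rw [hm, hk]; ring⟩
    exact (Nat.prime_iff_prime_int.mp hp).not_isUnit h1
  have h1 := splits_swap (h p hF)
  rw [hm] at h1
  have h2 := (Pool.Agent.W335.BMX.odd3 p hp2 m a hpm hpa).mp h1
  have hap : (a : ZMod p) ≠ 0 := by
    intro h0
    exact hpa ((ZMod.intCast_zmod_eq_zero_iff_dvd a p).mp h0)
  rw [legendreSym.eq_one_iff p hap] at h2
  have : NeZero p := ⟨hp.ne_zero⟩
  exact sq_lift a h2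

/-- The Hasse principle for `z² = a x² + b y²`. -/
theorem hasse_aux (n : ℕ) : ∀ a b : ℤ, a ≠ 0 → b ≠ 0 → a.natAbs + b.natAbs ≤ n →
    Splits (a : ℝ) (b : ℝ) → (∀ (p : ℕ) (_ : Fact p.Prime), Splits (a : ℚ_[p]) (b : ℚ_[p])) →
    Splits (a : ℚ) (b : ℚ) := by
  induction n with
  | zero =>
    intro a b ha _ h
    exact absurd (by omega : a = 0) ha
  | succ n ih =>
    -- the reduction of the second entry to a squarefree number, and the descent
    have core : ∀ a b : ℤ, a ≠ 0 → b ≠ 0 → a.natAbs + b.natAbs ≤ n + 1 →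
        a.natAbs ≤ b.natAbs →
        Splits (a : ℝ) (b : ℝ) → (∀ (p : ℕ) (_ : Fact p.Prime), Splits (a : ℚ_[p]) (b : ℚ_[p])) →
        Splits (a : ℚ) (b : ℚ) := by
      intro a b ha hb hab hle hR hp
      by_cases hsf : Squarefree b
      · rcases Nat.lt_or_ge b.natAbs 2 with hb2 | hb2
        · -- units
          have hb1 : b = 1 ∨ b = -1 := by omega
          have ha1 : a = 1 ∨ a = -1 := by omega
          rcases hb1 with rfl | rfl
          · exact ⟨0, 1, 1, by simp, by simp⟩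
          rcases ha1 with rfl | rfl
          · exact ⟨1, 0, 1, by simp, by simp⟩
          exfalso
          obtain ⟨x, y, z, h0, h1⟩ := hR
          push_cast at h1
          have hx : x ^ 2 = 0 := by nlinarith [sq_nonneg x, sq_nonneg y, sq_nonneg z]
          have hy : y ^ 2 = 0 := by nlinarith [sq_nonneg x, sq_nonneg y, sq_nonneg z]
          have hz : z ^ 2 = 0 := by nlinarith [sq_nonneg x, sq_nonneg y, sq_nonneg z]
          have hx' := pow_eq_zero_iff (two_ne_zero) |>.mp hx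
          have hy' := pow_eq_zero_iff (two_ne_zero) |>.mp hy
          have hz' := pow_eq_zero_iff (two_ne_zero) |>.mp hz
          rcases h0 with h0 | h0 | h0
          · exact h0 hx'
          · exact h0 hy'
          · exact h0 hz'
        · obtain ⟨N, hN⟩ : ∃ N : ℕ, b.natAbs = N := ⟨_, rfl⟩
          obtain ⟨s, hs⟩ := sq_crt a (n := b.natAbs) (Int.squarefree_natAbs.mpr hsf)
            (fun p hpp hpb => sq_at_prime hsf hpp (Int.natCast_dvd.mpr hpb) hp)
          rw [hN] at hs hb2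
          obtain ⟨t, ht1, ht2, ht3⟩ : ∃ t : ℤ, (N : ℤ) ∣ t ^ 2 - a ∧ 2 * t ≤ N ∧ -(N : ℤ) ≤ 2 * t := by
            have hNpos : (0 : ℤ) < N := by omega
            have h1 := Int.emod_nonneg s hNpos.ne'
            have h2 := Int.emod_lt_of_pos s hNpos
            have h3 : (N : ℤ) ∣ s - s % N := Int.dvd_self_sub_emod
            have h4 : ∀ t : ℤ, (N : ℤ) ∣ s - t → (N : ℤ) ∣ t ^ 2 - a := by
              intro t ht
              have e : t ^ 2 - a = (s ^ 2 - a) - (s - t) * (s + t) := by ring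
              rw [e]
              exact dvd_sub hs (Dvd.dvd.mul_right ht _)
            by_cases h5 : 2 * (s % N) ≤ N
            · exact ⟨s % N, h4 _ h3, h5, by omega⟩
            · refine ⟨s % N - N, h4 _ ?_, by omega, by omega⟩
              have : s - (s % N - N) = (s - s % N) + N := by ring
              rw [this]
              exact dvd_add h3 (dvd_refl _)
          have hbd : b ∣ t ^ 2 - a := by
            rw [← Int.natAbs_dvd, hN]; exact ht1
          obtain ⟨b', hb'⟩ := hbd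
          by_cases hb0 : b' = 0
          · refine ⟨1, 0, t, Or.inl one_ne_zero, ?_⟩
            rw [hb0, mul_zero] at hb'
            have : t ^ 2 = a := by linarith
            have h2 : ((t ^ 2 : ℤ) : ℚ) = (a : ℚ) := by rw [this]
            push_cast at h2
            rw [h2]; ring
          have hNz : |b| = N := by rw [Int.abs_eq_natAbs, hN]
          have haz : |a| ≤ N := by
            rw [Int.abs_eq_natAbs]; exact_mod_cast hN ▸ hle
          have hlt : b'.natAbs < b.natAbs := by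
            have h1 : (N : ℤ) * |b'| ≤ t ^ 2 + |a| := by
              rw [← hNz, ← abs_mul, ← hb']
              refine (abs_sub _ _).trans ?_
              rw [abs_of_nonneg (sq_nonneg t)]
            have h2 : 4 * t ^ 2 ≤ (N : ℤ) ^ 2 := by nlinarith
            have h3 : (2 : ℤ) ≤ N := by exact_mod_cast hb2
            have h4 : |b'| < N := by
              by_contra hcon
              push Not at hcon
              nlinarith
            rw [Int.abs_eq_natAbs] at h4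
            rw [hN]
            exact_mod_cast h4
          have hIH := ih a b' ha hb0 (by omega)
            (splits_norm (t := (t : ℝ)) (by exact_mod_cast hb'.symm) (by exact_mod_cast hb) hR)
            (fun p hF => splits_norm (t := (t : ℚ_[p])) (by exact_mod_cast hb'.symm)
              (by exact_mod_cast hb) (hp p hF))
          exact splits_norm (t := (t : ℚ)) (b := (b' : ℚ))
            (by rw [mul_comm]; exact_mod_cast hb'.symm) (by exact_mod_cast hb0) hIH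
      · unfold Squarefree at hsf
        push Not at hsf
        obtain ⟨u, ⟨s, hs⟩, hu⟩ := hsf
        have hu0 : u ≠ 0 := by
          rintro rfl
          exact hb (by rw [hs]; ring)
        have hs0 : s ≠ 0 := by
          rintro rfl
          exact hb (by rw [hs]; ring)
        have hu2 : 2 ≤ u.natAbs := by
          have h1 : u.natAbs ≠ 1 := fun h => hu (Int.isUnit_iff_natAbs_eq.mpr h)
          have h2 : u.natAbs ≠ 0 := Int.natAbs_ne_zero.mpr hu0
          omega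
        have hlt : s.natAbs < b.natAbs := by
          rw [hs, Int.natAbs_mul, Int.natAbs_mul]
          have h3 : 0 < s.natAbs := Int.natAbs_pos.mpr hs0
          have h4 : 2 * 2 ≤ u.natAbs * u.natAbs := Nat.mul_le_mul hu2 hu2
          have h5 := Nat.mul_le_mul_right s.natAbs h4
          omega
        have hbF : ∀ (F : Type) [Field F], ((b : ℤ) : F) = (u : F) * (u : F) * (s : F) := by
          intro F _
          rw [hs]; push_cast; ring
        have hIH := ih a s ha hs0 (by omega)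
          (splits_of_mul_sq (u := (u : ℝ)) (by exact_mod_cast hu0) (by rw [← hbF]; exact hR))
          (fun p hF => splits_of_mul_sq (u := (u : ℚ_[p])) (by exact_mod_cast hu0)
            (by rw [← hbF]; exact hp p hF))
        rw [hbF ℚ]
        exact splits_mul_sq' (by exact_mod_cast hu0) hIH
    intro a b ha hb hab hR hp
    rcases Nat.le_total a.natAbs b.natAbs with h | h
    · exact core a b ha hb hab h hR hp
    · exact splits_swap (core b a hb ha (by omega) h (splits_swap hR)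
        (fun p hF => splits_swap (hp p hF)))

/-- A ternary quadratic form. -/
def tq {K : Type} [CommRing K] (A B C D E F : ℤ) (x y z : K) : K :=
  A * x ^ 2 + B * y ^ 2 + C * z ^ 2 + D * (x * y) + E * (x * z) + F * (y * z)

/-- the Hasse principle for ternary forms -/
theorem ternary (A B C D E F : ℤ)
    (hR : ∃ x y z : ℝ, (x ≠ 0 ∨ y ≠ 0 ∨ z ≠ 0) ∧ tq A B C D E F x y z = 0)
    (hp : ∀ (p : ℕ) (_ : Fact p.Prime), ∃ x y z : ℚ_[p], (x ≠ 0 ∨ y ≠ 0 ∨ z ≠ 0) ∧
      tq A B C D E F x y z = 0) :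
    ∃ x y z : ℚ, (x ≠ 0 ∨ y ≠ 0 ∨ z ≠ 0) ∧ tq A B C D E F x y z = 0 := by
  by_cases hA : A = 0
  · exact ⟨1, 0, 0, by simp, by simp [tq, hA]⟩
  obtain ⟨b, hb⟩ : ∃ b : ℤ, 4 * A * B - D ^ 2 = b := ⟨_, rfl⟩
  obtain ⟨c, hc⟩ : ∃ c : ℤ, 4 * A * C - E ^ 2 = c := ⟨_, rfl⟩
  obtain ⟨h, hh⟩ : ∃ h : ℤ, 4 * A * F - 2 * D * E = h := ⟨_, rfl⟩
  have id1 : ∀ (K : Type) [Field K] (x y z : K), 4 * (A : K) * tq A B C D E F x y z =
      (2 * A * x + D * y + E * z) ^ 2 + b * y ^ 2 + c * z ^ 2 + h * (y * z) := by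
    intro K _ x y z
    rw [← hb, ← hc, ← hh]; unfold tq; push_cast; ring
  have hA' : (4 * (A : ℚ)) ≠ 0 := mul_ne_zero (by norm_num) (by exact_mod_cast hA)
  by_cases hb0 : b = 0
  · refine ⟨-(D : ℚ), 2 * A, 0, Or.inr (Or.inl (mul_ne_zero (by norm_num) (by exact_mod_cast hA))), ?_⟩
    have := id1 ℚ (-(D : ℚ)) (2 * A) 0
    rw [hb0] at this
    have h2 : 4 * (A : ℚ) * tq A B C D E F (-(D : ℚ)) (2 * A) 0 = 0 := by
      rw [this]; push_cast; ring
    exact (mul_eq_zero.mp h2).resolve_left hA'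
  obtain ⟨e, he⟩ : ∃ e : ℤ, 4 * b * c - h ^ 2 = e := ⟨_, rfl⟩
  have id2 : ∀ (K : Type) [Field K] (x y z : K), 4 * (b : K) * (4 * (A : K) * tq A B C D E F x y z) =
      4 * b * (2 * A * x + D * y + E * z) ^ 2 + (2 * b * y + h * z) ^ 2 + e * z ^ 2 := by
    intro K _ x y z
    rw [id1, ← he]; push_cast; ring
  have hb' : (4 * (b : ℚ)) ≠ 0 := mul_ne_zero (by norm_num) (by exact_mod_cast hb0)
  have hAq : (A : ℚ) ≠ 0 := by exact_mod_cast hA
  have hbq : (b : ℚ) ≠ 0 := by exact_mod_cast hb0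
  have back : ∀ X Y z : ℚ, (X ≠ 0 ∨ Y ≠ 0 ∨ z ≠ 0) → 4 * b * X ^ 2 + Y ^ 2 + e * z ^ 2 = 0 →
      ∃ x y z : ℚ, (x ≠ 0 ∨ y ≠ 0 ∨ z ≠ 0) ∧ tq A B C D E F x y z = 0 := by
    intro X Y z h0 h1
    obtain ⟨y, hy⟩ : ∃ y : ℚ, 2 * b * y + h * z = Y := ⟨(Y - h * z) / (2 * b), by field_simp; ring⟩
    obtain ⟨x, hx⟩ : ∃ x : ℚ, 2 * A * x + D * y + E * z = X :=
      ⟨(X - D * y - E * z) / (2 * A), by field_simp; ring⟩
    refine ⟨x, y, z, ?_, ?_⟩
    · by_contra hcon
      push Not at hcon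
      obtain ⟨rfl, rfl, rfl⟩ := hcon
      simp only [mul_zero, add_zero] at hx hy
      rcases h0 with h0 | h0 | h0
      · exact h0 hx.symm
      · exact h0 hy.symm
      · exact h0 rfl
    · have h2 := id2 ℚ x y z
      rw [hx, hy, h1] at h2
      exact (mul_eq_zero.mp ((mul_eq_zero.mp h2).resolve_left hb')).resolve_left hA'
  by_cases he0 : e = 0
  · exact back 0 0 1 (by simp) (by rw [he0]; push_cast; ring)
  have fwd : ∀ (K : Type) [Field K] [CharZero K] (x y z : K), (x ≠ 0 ∨ y ≠ 0 ∨ z ≠ 0) →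
      tq A B C D E F x y z = 0 → Splits (((-4 * b : ℤ)) : K) ((-e : ℤ) : K) := by
    intro K _ _ x y z h0 h1
    have h2 := id2 K x y z
    rw [h1, mul_zero, mul_zero] at h2
    have hAK : (2 * A : K) ≠ 0 := mul_ne_zero two_ne_zero (by exact_mod_cast hA)
    have hbK : (2 * b : K) ≠ 0 := mul_ne_zero two_ne_zero (by exact_mod_cast hb0)
    refine ⟨2 * A * x + D * y + E * z, z, 2 * b * y + h * z, ?_, ?_⟩
    · by_contra hcon
      push Not at hcon
      obtain ⟨e1, e2, e3⟩ := hcon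
      rw [e2] at e1 e3
      have hy : y = 0 := by
        rw [mul_zero, add_zero] at e3
        exact (mul_eq_zero.mp e3).resolve_left hbK
      rw [hy] at e1
      have hx : x = 0 := by
        rw [mul_zero, mul_zero, add_zero, add_zero] at e1
        exact (mul_eq_zero.mp e1).resolve_left hAK
      rcases h0 with h0 | h0 | h0
      · exact h0 hx
      · exact h0 hy
      · exact h0 e2
    · push_cast
      linear_combination -h2
  obtain ⟨x, z, Y, h0, h1⟩ := hasse_aux _ (-4 * b) (-e) (by omega) (by omega) le_rfl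
    (by obtain ⟨x, y, z, h0, h1⟩ := hR; exact fwd ℝ x y z h0 h1)
    (fun p hF => by obtain ⟨x, y, z, h0, h1⟩ := hp p hF; exact fwd ℚ_[p] x y z h0 h1)
  push_cast at h1
  exact back x Y z (by tauto) (by linear_combination h1)

/-- the index type of a single block of size three -/
abbrev V3 : Type := Σ i : Fin 1, Fin ((fun _ : Fin 1 => 2) i + 1)

theorem exists_coeffs (f : MvPolynomial V3 ℤ)
    (hf : ∀ s ∈ f.support, ∀ i : Fin 1, ∑ j : Fin ((fun _ : Fin 1 => 2) i + 1), s ⟨i, j⟩ = 2) :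
    ∃ A B C D E F : ℤ, ∀ (K : Type) [Field K] (x : V3 → K),
      MvPolynomial.aeval x f = tq A B C D E F (x ⟨0, 0⟩) (x ⟨0, 1⟩) (x ⟨0, 2⟩) := by
  classical
  rw [f.as_sum]
  apply Finset.sum_induction _ (fun f : MvPolynomial V3 ℤ => ∃ A B C D E F : ℤ,
    ∀ (K : Type) [Field K] (x : V3 → K),
      MvPolynomial.aeval x f = tq A B C D E F (x ⟨0, 0⟩) (x ⟨0, 1⟩) (x ⟨0, 2⟩))
  · rintro f g ⟨A, B, C, D, E, F, h⟩ ⟨A', B', C', D', E', F', h'⟩
    refine ⟨A + A', B + B', C + C', D + D', E + E', F + F', fun K _ x => ?_⟩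
    rw [map_add, h, h']; unfold tq; push_cast; ring
  · exact ⟨0, 0, 0, 0, 0, 0, fun K _ x => by simp [tq]⟩
  · intro s hs
    have h1 : s ⟨0, 0⟩ + s ⟨0, 1⟩ + s ⟨0, 2⟩ = 2 := by
      have := hf s hs 0
      rw [Fin.sum_univ_three] at this
      exact this
    obtain ⟨c, hc⟩ : ∃ c : ℤ, MvPolynomial.coeff s f = c := ⟨_, rfl⟩
    rw [hc]
    have hev : ∀ (K : Type) [Field K] (x : V3 → K),
        MvPolynomial.aeval x (MvPolynomial.monomial s c) =
        (c : K) * (x ⟨0, 0⟩ ^ s ⟨0, 0⟩ * x ⟨0, 1⟩ ^ s ⟨0, 1⟩ * x ⟨0, 2⟩ ^ s ⟨0, 2⟩) := by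
      intro K _ x
      rw [MvPolynomial.aeval_monomial, Finsupp.prod_fintype _ _ (fun i => pow_zero _)]
      rw [Fintype.prod_sigma]
      simp only [Finset.univ_unique, Finset.prod_singleton]
      rw [show (algebraMap ℤ K) c = (c : K) from by simp]
      congr 1
      exact Fin.prod_univ_three _
    obtain ⟨s0, h0⟩ : ∃ n, s ⟨0, 0⟩ = n := ⟨_, rfl⟩
    obtain ⟨s1, h1'⟩ : ∃ n, s ⟨0, 1⟩ = n := ⟨_, rfl⟩
    obtain ⟨s2, h2⟩ : ∃ n, s ⟨0, 2⟩ = n := ⟨_, rfl⟩
    rw [h0, h1', h2] at h1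
    rw [h0, h1', h2] at hev
    have hcases : (s0 = 2 ∧ s1 = 0 ∧ s2 = 0) ∨ (s0 = 0 ∧ s1 = 2 ∧ s2 = 0) ∨
        (s0 = 0 ∧ s1 = 0 ∧ s2 = 2) ∨ (s0 = 1 ∧ s1 = 1 ∧ s2 = 0) ∨ (s0 = 1 ∧ s1 = 0 ∧ s2 = 1) ∨
        (s0 = 0 ∧ s1 = 1 ∧ s2 = 1) := by omega
    rcases hcases with ⟨rfl, rfl, rfl⟩ | ⟨rfl, rfl, rfl⟩ | ⟨rfl, rfl, rfl⟩ | ⟨rfl, rfl, rfl⟩ |
      ⟨rfl, rfl, rfl⟩ | ⟨rfl, rfl, rfl⟩
    · exact ⟨c, 0, 0, 0, 0, 0, fun K _ x => by rw [hev]; unfold tq; push_cast; ring⟩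
    · exact ⟨0, c, 0, 0, 0, 0, fun K _ x => by rw [hev]; unfold tq; push_cast; ring⟩
    · exact ⟨0, 0, c, 0, 0, 0, fun K _ x => by rw [hev]; unfold tq; push_cast; ring⟩
    · exact ⟨0, 0, 0, c, 0, 0, fun K _ x => by rw [hev]; unfold tq; push_cast; ring⟩
    · exact ⟨0, 0, 0, 0, c, 0, fun K _ x => by rw [hev]; unfold tq; push_cast; ring⟩
    · exact ⟨0, 0, 0, 0, 0, c, fun K _ x => by rw [hev]; unfold tq; push_cast; ring⟩

theorem conic_hasse (f : MvPolynomial (Σ i : Fin 1, Fin ((fun _ : Fin 1 => 2) i + 1)) ℤ)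
    (hf : ∀ s ∈ f.support, ∀ i : Fin 1, ∑ j : Fin ((fun _ : Fin 1 => 2) i + 1), s ⟨i, j⟩ = 2)
    (hR : ∃ x : (Σ i : Fin 1, Fin ((fun _ : Fin 1 => 2) i + 1)) → ℝ,
      (∀ i : Fin 1, ∃ j : Fin ((fun _ : Fin 1 => 2) i + 1), x ⟨i, j⟩ ≠ 0) ∧ MvPolynomial.aeval x f = 0)
    (hp : ∀ p : ℕ, ∀ _ : Fact p.Prime, ∃ x : (Σ i : Fin 1, Fin ((fun _ : Fin 1 => 2) i + 1)) → Padic p,
      (∀ i : Fin 1, ∃ j : Fin ((fun _ : Fin 1 => 2) i + 1), x ⟨i, j⟩ ≠ 0) ∧ MvPolynomial.aeval x f = 0) :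
    ∃ x : (Σ i : Fin 1, Fin ((fun _ : Fin 1 => 2) i + 1)) → ℚ,
      (∀ i : Fin 1, ∃ j : Fin ((fun _ : Fin 1 => 2) i + 1), x ⟨i, j⟩ ≠ 0) ∧ MvPolynomial.aeval x f = 0 := by
  obtain ⟨A, B, C, D, E, F, h⟩ := exists_coeffs f hf
  have hne : ∀ (K : Type) [Field K] (x : V3 → K),
      (∀ i : Fin 1, ∃ j : Fin ((fun _ : Fin 1 => 2) i + 1), x ⟨i, j⟩ ≠ 0) →
      (x ⟨0, 0⟩ ≠ 0 ∨ x ⟨0, 1⟩ ≠ 0 ∨ x ⟨0, 2⟩ ≠ 0) := by
    intro K _ x hx
    obtain ⟨j, hj⟩ := hx 0
    change Fin 3 at j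
    fin_cases j
    · exact Or.inl hj
    · exact Or.inr (Or.inl hj)
    · exact Or.inr (Or.inr hj)
  obtain ⟨x, y, z, h0, h1⟩ := ternary A B C D E F
    (by
      obtain ⟨x, hx, hx2⟩ := hR
      rw [h ℝ x] at hx2
      exact ⟨_, _, _, hne ℝ x hx, hx2⟩)
    (fun p hF => by
      obtain ⟨x, hx, hx2⟩ := hp p hF
      rw [h ℚ_[p] x] at hx2
      exact ⟨_, _, _, hne ℚ_[p] x hx, hx2⟩)
  refine ⟨fun v => ![x, y, z] v.2, ?_, ?_⟩
  · intro i
    rcases h0 with h0 | h0 | h0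
    · exact ⟨0, h0⟩
    · exact ⟨1, h0⟩
    · exact ⟨2, h0⟩
  · rw [h ℚ]
    exact h1

end Pool.Agent.Y804.Conic
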