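import Pool.Agent.Y716.Q.Kernel

/-!
# Crude sum of gcd over size for pairs of vectors in dimension three
-/

namespace Pool.Agent.Y804.TauThree

open Pool.Agent.Y716.Q

variable {ι : Type*} [Fintype ι]

/-- A vector parallel to a primitive vector is an integral multiple of it. -/
theorem eq_mul_of_mn {x y : ι → ℤ} (hx : Prim x) (h : ∀ i j, mn x y i j = 0) :
    ∃ c : ℤ, ∀ j, y j = c * x j := by
  obtain ⟨w, hw⟩ := hx.bezout
  refine ⟨∑ i, w i * y i, fun j => ?_⟩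
  have h1 : y j = ∑ i, w i * mn x y i j + (∑ i, w i * y i) * x j := by
    rw [Finset.sum_mul, ← Finset.sum_add_distrib]
    calc y j = (∑ i, w i * x i) * y j := by rw [hw, one_mul]
      _ = ∑ i, (w i * mn x y i j + w i * y i * x j) := by
        rw [Finset.sum_mul]
        refine Finset.sum_congr rfl (fun i _ => ?_)
        unfold mn; ring
  have h2 : ∑ i, w i * mn x y i j = 0 := Finset.sum_eq_zero (fun i _ => by rw [h, mul_zero])
  rw [h2, zero_add] at h1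
  exact h1

/-- The short elements of the orthogonal lattice detect parallel vectors. -/
theorem mn_zero_of_short {B a : ℝ} {x : ι → ℤ} (hb : Bal B a x) (hx : Sz B x)
    (ha : 1 ≤ a) (haB : a ≤ B) {y : ι → ℤ}
    (h : ∀ l : ι → ℤ, (∀ i, |(l i : ℝ)| ≤ 15 * Fintype.card ι * a) → ∑ i, l i * x i = 0 →
      ∑ i, l i * y i = 0) (i0 j0 : ι) : mn x y i0 j0 = 0 := by
  classical
  have hB : 1 ≤ B := ha.trans haB
  obtain ⟨N, hN1⟩ : ∃ N : ℕ, 2 * B ≤ 2 ^ N * a := by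
    obtain ⟨N, hN⟩ := pow_unbounded_of_one_lt (2 * B) (by norm_num : (1 : ℝ) < 2)
    refine ⟨N, ?_⟩
    have : (0 : ℝ) < 2 ^ N := by positivity
    nlinarith
  set l : ι → ℤ := fun i => (if i = j0 then x i0 else 0) - (if i = i0 then x j0 else 0) with hl
  have hdot : ∀ z : ι → ℤ, ∑ i, l i * z i = x i0 * z j0 - x j0 * z i0 := by
    intro z
    have : ∀ i, l i * z i = (if i = j0 then x i0 * z i else 0) -
        (if i = i0 then x j0 * z i else 0) := by
      intro i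
      rw [hl]
      simp only [sub_mul, ite_mul, zero_mul]
    simp only [this, Finset.sum_sub_distrib, Finset.sum_ite_eq', Finset.mem_univ, if_true]
  have hlx : ∑ i, l i * x i = 0 := by rw [hdot]; ring
  have hlb : ∀ i, |(l i : ℝ)| ≤ 2 * B := by
    intro i
    rw [hl]
    push_cast
    refine (abs_sub _ _).trans ?_
    have h1 : |(if i = j0 then (x i0 : ℝ) else 0)| ≤ B := by
      split_ifs
      · exact hx.1 _
      · simpa using (by linarith : (0:ℝ) ≤ B)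
    have h2 : |(if i = i0 then (x j0 : ℝ) else 0)| ≤ B := by
      split_ifs
      · exact hx.1 _
      · simpa using (by linarith : (0:ℝ) ≤ B)
    linarith
  obtain ⟨L, hL1, hL2, hL3⟩ := hb.generation hx hB ha N l (fun i => by
    refine (hlb i).trans (hN1.trans ?_)
    have : 0 ≤ 14 * (Fintype.card ι : ℝ) * a := by positivity
    linarith) hlx
  have h1 : mn x y i0 j0 = ∑ i, l i * y i := by rw [hdot]; rfl
  rw [h1]
  have h2 : ∀ i, l i * y i = ∑ j ∈ Finset.range (N + 1), 2 ^ j * (L j i * y i) := by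
    intro i
    rw [hL3 i, Finset.sum_mul]
    exact Finset.sum_congr rfl (fun j _ => by ring)
  simp only [h2]
  rw [Finset.sum_comm]
  refine Finset.sum_eq_zero (fun j _ => ?_)
  rw [← Finset.mul_sum, h (L j) (hL1 j) (hL2 j), mul_zero]

/-- At most two short elements of the orthogonal lattice detect parallel vectors. -/
theorem exists_pair (hk : Fintype.card ι = 3) {B a : ℝ} {x : ι → ℤ} (hb : Bal B a x)
    (hx : Sz B x) (ha : 1 ≤ a) (haB : a ≤ B) :
    ∃ b : Finset (ι → ℤ), b.card ≤ 2 ∧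
      (∀ l ∈ b, (∀ i, |(l i : ℝ)| ≤ 45 * a) ∧ ∑ i, l i * x i = 0) ∧
      ∀ y : ι → ℤ, (∀ l ∈ b, ∑ i, l i * y i = 0) → ∀ i j, mn x y i j = 0 := by
  classical
  have hB : 1 ≤ B := ha.trans haB
  obtain ⟨r, hr⟩ := hx.2
  have hr0 : x r ≠ 0 := by
    intro h
    rw [h] at hr
    simp only [Int.cast_zero, abs_zero] at hr
    linarith
  set φ : (ι → ℤ) → (ι → ℚ) := fun l i => (l i : ℚ) with hφ
  have hφinj : Function.Injective φ := by
    intro l l' h
    funext i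
    have := congrFun h i
    simpa [hφ] using this
  set S : Set (ι → ℤ) := {l | (∀ i, |(l i : ℝ)| ≤ 45 * a) ∧ ∑ i, l i * x i = 0} with hS
  set dot : (ι → ℤ) → ((ι → ℚ) →ₗ[ℚ] ℚ) := fun y =>
    ∑ i, (y i : ℚ) • LinearMap.proj i with hdot
  have hdotv : ∀ (y : ι → ℤ) (v : ι → ℚ), dot y v = ∑ i, (y i : ℚ) * v i := by
    intro y v
    simp [hdot, LinearMap.sum_apply]
  have hdotφ : ∀ (y l : ι → ℤ), dot y (φ l) = ((∑ i, l i * y i : ℤ) : ℚ) := by
    intro y l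
    rw [hdotv]
    push_cast
    exact Finset.sum_congr rfl (fun i _ => by simp [hφ, mul_comm])
  obtain ⟨b, hbT, hspan, hli⟩ := exists_linearIndependent ℚ (φ '' S)
  have hbfin : b.Finite := hli.setFinite
  have hker : Module.finrank ℚ (LinearMap.ker (dot x)) = 2 := by
    have hne : dot x ≠ 0 := by
      intro h
      have h1 := LinearMap.congr_fun h (Pi.single r 1)
      rw [hdotv] at h1
      simp [Pi.single_apply] at h1
      exact hr0 h1
    have h1 := Module.Dual.finrank_ker_add_one_of_ne_zero (f := dot x) hne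
    rw [Module.finrank_fintype_fun_eq_card, hk] at h1
    omega
  have hbker : b ⊆ (LinearMap.ker (dot x) : Set (ι → ℚ)) := by
    intro v hv
    obtain ⟨l, hl, rfl⟩ := hbT hv
    change dot x (φ l) = 0
    rw [hdotφ, hl.2]; simp
  have hcard : hbfin.toFinset.card ≤ 2 := by
    have := hbfin.fintype
    have h1 := finrank_span_set_eq_card hli
    have h2 : Submodule.span ℚ b ≤ LinearMap.ker (dot x) := Submodule.span_le.mpr hbker
    have h3 := Submodule.finrank_mono h2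
    rw [hker, h1] at h3
    have h4 : hbfin.toFinset = b.toFinset := by
      ext v; simp
    rw [h4]; exact h3
  refine ⟨hbfin.toFinset.image (fun v => Function.invFun φ v), ?_, ?_, ?_⟩
  · exact Finset.card_image_le.trans hcard
  · intro l hl
    rw [Finset.mem_image] at hl
    obtain ⟨v, hv, rfl⟩ := hl
    rw [Set.Finite.mem_toFinset] at hv
    obtain ⟨l, hl, rfl⟩ := hbT hv
    rw [Function.leftInverse_invFun hφinj l]
    exact hl
  · intro y hy
    apply mn_zero_of_short hb hx ha haB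
    intro l hl1 hl2
    have hl3 : l ∈ S := by
      refine ⟨fun i => ?_, hl2⟩
      have := hl1 i
      rw [hk] at this
      push_cast at this
      linarith
    have h1 : φ l ∈ Submodule.span ℚ (φ '' S) := Submodule.subset_span ⟨l, hl3, rfl⟩
    rw [← hspan] at h1
    have h2 : Submodule.span ℚ b ≤ LinearMap.ker (dot y) := by
      rw [Submodule.span_le]
      intro v hv
      obtain ⟨l', hl', rfl⟩ := hbT hv
      change dot y (φ l') = 0
      rw [hdotφ]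
      have := hy l' (by
        rw [Finset.mem_image]
        exact ⟨φ l', by rwa [Set.Finite.mem_toFinset], Function.leftInverse_invFun hφinj l'⟩)
      rw [this]; simp
    have h3 : dot y (φ l) = 0 := h2 h1
    rw [hdotφ] at h3
    exact_mod_cast h3

/-- The dot product with an orthogonal vector is controlled by the minors. -/
theorem dot_le {B m A : ℝ} {x y l : ι → ℤ} (hk : Fintype.card ι = 3) (hx : Sz B x)
    (hA : 0 ≤ A) (hl : ∀ i, |(l i : ℝ)| ≤ A) (hlx : ∑ i, l i * x i = 0)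
    (hm : ∀ i j, |(mn x y i j : ℝ)| ≤ m) : |((∑ i, l i * y i : ℤ) : ℝ)| * B ≤ 12 * A * m := by
  obtain ⟨r, hr⟩ := hx.2
  have h1 : x r * ∑ i, l i * y i = ∑ i, l i * mn x y r i := by
    have h2 : ∑ i, l i * mn x y r i = x r * ∑ i, l i * y i - y r * ∑ i, l i * x i := by
      rw [Finset.mul_sum, Finset.mul_sum, ← Finset.sum_sub_distrib]
      refine Finset.sum_congr rfl (fun i _ => ?_)
      unfold mn; ring
    rw [h2, hlx, mul_zero, sub_zero]
  have h2 : |(x r : ℝ)| * |((∑ i, l i * y i : ℤ) : ℝ)| ≤ 3 * (A * m) := by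
    rw [← abs_mul, ← Int.cast_mul, h1]
    push_cast
    refine (Finset.abs_sum_le_sum_abs _ _).trans ?_
    have : ∑ i, |(l i : ℝ) * (mn x y r i : ℝ)| ≤ ∑ _i : ι, A * m := by
      refine Finset.sum_le_sum (fun i _ => ?_)
      rw [abs_mul]
      exact mul_le_mul (hl i) (hm r i) (abs_nonneg _) hA
    rwa [Finset.sum_const, Finset.card_univ, nsmul_eq_mul, hk] at this
  have h3 : 0 ≤ |((∑ i, l i * y i : ℤ) : ℝ)| := abs_nonneg _
  nlinarith

/-- The number of second vectors with given divisor and size of the minors. -/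
theorem fiber_bound (hk : Fintype.card ι = 3) {B a : ℝ} {x : ι → ℤ} (hb : Bal B a x)
    (hx : Sz B x) (hp : Prim x) (ha : 1 ≤ a) (haB : a ≤ B) {G : ℕ} (hG : 1 ≤ G) (j : ℕ)
    (U : Finset (ι → ℤ))
    (hU : ∀ y ∈ U, (∀ i, |(y i : ℝ)| ≤ B) ∧ (∀ i k, (G : ℤ) ∣ mn x y i k) ∧
      (∃ i k, mn x y i k ≠ 0) ∧ ∀ i k, |(mn x y i k : ℝ)| ≤ 2 ^ (j + 1) * G) :
    (U.card : ℝ) ≤ 17 * (3240 * (a * 2 ^ j / B)) ^ 2 := by
  classical
  rcases U.eq_empty_or_nonempty with hU0 | ⟨y₁, hy₁⟩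
  · rw [hU0]; simp only [Finset.card_empty, Nat.cast_zero]; positivity
  have hB : 1 ≤ B := ha.trans haB
  have hGr : (1 : ℝ) ≤ G := by exact_mod_cast hG
  have hG0 : (G : ℤ) ≠ 0 := by exact_mod_cast (by omega : G ≠ 0)
  obtain ⟨b, hb2, hbl, hby⟩ := exists_pair hk hb hx ha haB
  obtain ⟨R, hR⟩ : ∃ R : ℝ, 1080 * (a * 2 ^ j / B) = R := ⟨_, rfl⟩
  have hR0 : 0 ≤ R := by rw [← hR]; positivity
  -- values of the dot products
  have hval : ∀ y ∈ U, ∀ l ∈ b, |((∑ i, l i * y i : ℤ) : ℝ)| ≤ R * G := by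
    intro y hy l hl
    have h1 := dot_le hk hx (by positivity) (hbl l hl).1 (hbl l hl).2 (hU y hy).2.2.2
    rw [← hR]
    have h2 : 1080 * (a * 2 ^ j / B) * G = 1080 * a * 2 ^ j * G / B := by ring
    rw [h2, le_div_iff₀ (by linarith)]
    rw [pow_succ] at h1
    linarith
  have hdvd : ∀ y ∈ U, ∀ l ∈ b, (G : ℤ) ∣ ∑ i, l i * y i := by
    intro y hy l hl
    exact dvd_dot_of_orth hp (hU y hy).2.1 (hbl l hl).2
  have hval2 : ∀ y ∈ U, ∀ l ∈ b, |(((∑ i, l i * y i) / (G : ℤ) : ℤ) : ℝ)| ≤ R := by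
    intro y hy l hl
    obtain ⟨c, hc⟩ := hdvd y hy l hl
    have h1 := hval y hy l hl
    rw [hc] at h1 ⊢
    rw [Int.mul_ediv_cancel_left _ hG0]
    push_cast at h1
    rw [abs_mul, abs_of_pos (by linarith : (0:ℝ) < G)] at h1
    nlinarith
  have hR1 : 1 ≤ R := by
    obtain ⟨i, k, hik⟩ := (hU y₁ hy₁).2.2.1
    have h1 : ∃ l ∈ b, ∑ i, l i * y₁ i ≠ 0 := by
      by_contra hcon
      push Not at hcon
      exact hik (hby y₁ hcon i k)
    obtain ⟨l, hl, hl0⟩ := h1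
    obtain ⟨c, hc⟩ := hdvd y₁ hy₁ l hl
    have hc0 : c ≠ 0 := by
      rintro rfl
      rw [mul_zero] at hc
      exact hl0 hc
    have h2 := hval2 y₁ hy₁ l hl
    rw [hc, Int.mul_ediv_cancel_left _ hG0] at h2
    have h3 : (1 : ℝ) ≤ |(c : ℝ)| := by exact_mod_cast Int.one_le_abs hc0
    linarith
  obtain ⟨M, hM⟩ : ∃ M : ℕ, ⌊R⌋₊ = M := ⟨_, rfl⟩
  have hMR : (M : ℝ) ≤ R := by rw [← hM]; exact Nat.floor_le hR0
  have hmaps : ∀ y ∈ U, (fun (l : b) => (∑ i, l.1 i * y i) / (G : ℤ)) ∈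
      Fintype.piFinset (fun _ : b => Finset.Icc (-(M : ℤ)) M) := by
    intro y hy
    rw [Fintype.mem_piFinset]
    intro l
    rw [Finset.mem_Icc, ← abs_le]
    have h1 := hval2 y hy l.1 l.2
    have h2 : ((((∑ i, l.1 i * y i) / (G : ℤ) : ℤ).natAbs : ℕ) : ℝ) ≤ R := by
      rw [Nat.cast_natAbs, Int.cast_abs]; exact h1
    have h3 := Nat.le_floor h2
    rw [hM] at h3
    rw [Int.abs_eq_natAbs]
    exact_mod_cast h3
  have hcard : U.card ≤ 17 * (Fintype.piFinset (fun _ : b => Finset.Icc (-(M : ℤ)) M)).card := by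
    apply Finset.card_le_mul_card_image_of_maps_to hmaps
    intro c _
    rcases (U.filter (fun y => (fun (l : b) => (∑ i, l.1 i * y i) / (G : ℤ)) = c)).eq_empty_or_nonempty
      with h0 | ⟨y₀, hy₀⟩
    · rw [h0]; simp
    rw [Finset.mem_filter] at hy₀
    have hsub : (U.filter (fun y => (fun (l : b) => (∑ i, l.1 i * y i) / (G : ℤ)) = c)) ⊆
        (Finset.Icc (-8 : ℤ) 8).image (fun t => fun i => y₀ i + t * x i) := by
      intro y hy
      rw [Finset.mem_filter] at hy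
      have h1 : ∀ l ∈ b, ∑ i, l i * (y i - y₀ i) = 0 := by
        intro l hl
        have e1 := congrFun hy.2 ⟨l, hl⟩
        have e2 := congrFun hy₀.2 ⟨l, hl⟩
        simp only at e1 e2
        obtain ⟨c1, hc1⟩ := hdvd y hy.1 l hl
        obtain ⟨c2, hc2⟩ := hdvd y₀ hy₀.1 l hl
        rw [hc1, Int.mul_ediv_cancel_left _ hG0] at e1
        rw [hc2, Int.mul_ediv_cancel_left _ hG0] at e2
        simp only [mul_sub, Finset.sum_sub_distrib]
        rw [hc1, hc2, e1, e2, sub_self]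
      obtain ⟨t, ht⟩ := eq_mul_of_mn hp (hby (fun i => y i - y₀ i) h1)
      rw [Finset.mem_image]
      refine ⟨t, ?_, ?_⟩
      · obtain ⟨r, hr⟩ := hx.2
        have h2 : |(t : ℝ)| * |(x r : ℝ)| ≤ 2 * B := by
          rw [← abs_mul]
          have h3 : (t : ℝ) * (x r : ℝ) = (y r : ℝ) - (y₀ r : ℝ) := by exact_mod_cast (ht r).symm
          rw [h3]
          have h4 := (hU y hy.1).1 r
          have h5 := (hU y₀ hy₀.1).1 r
          linarith [abs_sub (y r : ℝ) (y₀ r : ℝ)]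
        have h3 : |(t : ℝ)| ≤ 8 := by
          have h4 := abs_nonneg (t : ℝ)
          by_contra hcon
          push Not at hcon
          nlinarith
        rw [Finset.mem_Icc, ← abs_le]
        exact_mod_cast h3
      · funext i
        have := ht i
        linarith
    refine (Finset.card_le_card hsub).trans (Finset.card_image_le.trans ?_)
    simp
  have hpi : (Fintype.piFinset (fun _ : b => Finset.Icc (-(M : ℤ)) M)).card ≤ (2 * M + 1) ^ 2 := by
    rw [Fintype.card_piFinset]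
    simp only [Int.card_Icc]
    rw [Finset.prod_const, Finset.card_univ, Fintype.card_coe]
    have h1 : ((M : ℤ) + 1 - -(M : ℤ)).toNat = 2 * M + 1 := by omega
    rw [h1]
    exact Nat.pow_le_pow_right (by omega) hb2
  have h1 : (U.card : ℝ) ≤ 17 * (2 * M + 1) ^ 2 := by
    have := hcard.trans (Nat.mul_le_mul_left 17 hpi)
    exact_mod_cast this
  refine h1.trans ?_
  have h2 : 3240 * (a * 2 ^ j / B) = 3 * R := by rw [← hR]; ring
  rw [h2]
  have h3 : (2 * (M : ℝ) + 1) ≤ 3 * R := by linarith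
  have h4 : (0 : ℝ) ≤ 2 * (M : ℝ) + 1 := by positivity
  nlinarith

/-- The key of a second vector: the divisor and the dyadic size of the minors. -/
theorem exists_key {B : ℝ} {x y : ι → ℤ} (hx : ∀ i, |(x i : ℝ)| ≤ B)
    (hy : ∀ i, |(y i : ℝ)| ≤ B) (h0 : ∃ i j, mn x y i j ≠ 0) {t : ℝ}
    (h : ∃ (g : ℤ) (μ : ℝ), (∀ i j, g ∣ mn x y i j) ∧ (∀ i j, |(mn x y i j : ℝ)| ≤ μ) ∧
      t * μ ≤ B ^ 2 * |(g : ℝ)|) :
    ∃ k : ℕ × ℕ, 1 ≤ k.2 ∧ (2 : ℝ) ^ k.1 * k.2 ≤ 2 * B ^ 2 ∧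
      (∀ i j, (k.2 : ℤ) ∣ mn x y i j) ∧
      (∀ i j, |(mn x y i j : ℝ)| ≤ 2 ^ (k.1 + 1) * k.2) ∧ t ≤ B ^ 2 / 2 ^ k.1 := by
  classical
  obtain ⟨g, μ, hg, hμ, ht⟩ := h
  obtain ⟨i1, j1, h1⟩ := h0
  have hg0 : g ≠ 0 := by
    rintro rfl
    exact h1 (zero_dvd_iff.mp (hg i1 j1))
  have hG1 : 1 ≤ g.natAbs := Int.natAbs_pos.mpr hg0
  obtain ⟨⟨i0, j0⟩, -, hmax⟩ := Finset.exists_max_image (Finset.univ : Finset (ι × ι))
    (fun p => (mn x y p.1 p.2).natAbs) ⟨(i1, j1), Finset.mem_univ _⟩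
  simp only at hmax
  have hdv : g.natAbs ∣ (mn x y i0 j0).natAbs := Int.natAbs_dvd_natAbs.mpr (hg i0 j0)
  obtain ⟨q, hq⟩ := hdv
  have hq1 : 1 ≤ q := by
    rw [Nat.one_le_iff_ne_zero]
    rintro rfl
    have h2 := hmax (i1, j1) (Finset.mem_univ _)
    rw [hq, mul_zero] at h2
    simp only [nonpos_iff_eq_zero, Int.natAbs_eq_zero] at h2
    exact h1 h2
  have hcast : ∀ z : ℤ, |(z : ℝ)| = (z.natAbs : ℝ) := fun z => by
    rw [Nat.cast_natAbs, Int.cast_abs]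
  have hlog1 : (2 : ℝ) ^ (Nat.log 2 q) ≤ q := by
    exact_mod_cast Nat.pow_log_le_self 2 (by omega)
  have hlog2 : (q : ℝ) ≤ 2 ^ (Nat.log 2 q + 1) := by
    exact_mod_cast (Nat.lt_pow_succ_log_self (by norm_num) q).le
  have hGr : (1 : ℝ) ≤ g.natAbs := by exact_mod_cast hG1
  have hqG : ((mn x y i0 j0).natAbs : ℝ) = g.natAbs * q := by exact_mod_cast hq
  refine ⟨(Nat.log 2 q, g.natAbs), hG1, ?_, ?_, ?_, ?_⟩
  · have h3 : |(mn x y i0 j0 : ℝ)| ≤ 2 * B ^ 2 := by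
      unfold mn
      push_cast
      refine (abs_sub _ _).trans ?_
      rw [abs_mul, abs_mul]
      have e1 := hx i0
      have e2 := hx j0
      have e3 := hy i0
      have e4 := hy j0
      have f1 := abs_nonneg (x i0 : ℝ)
      have f2 := abs_nonneg (x j0 : ℝ)
      have f3 := abs_nonneg (y i0 : ℝ)
      have f4 := abs_nonneg (y j0 : ℝ)
      have g1 := mul_le_mul e1 e4 f4 (f1.trans e1)
      have g2 := mul_le_mul e2 e3 f3 (f2.trans e2)
      nlinarith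
    rw [hcast, hqG] at h3
    refine le_trans ?_ h3
    simp only
    rw [mul_comm]
    exact mul_le_mul_of_nonneg_left hlog1 (by linarith)
  · intro i j
    exact Int.natAbs_dvd.mpr (hg i j)
  · intro i j
    have h2 := hmax (i, j) (Finset.mem_univ _)
    simp only at h2
    rw [hcast]
    have h3 : ((mn x y i j).natAbs : ℝ) ≤ ((mn x y i0 j0).natAbs : ℝ) := by exact_mod_cast h2
    refine h3.trans ?_
    rw [hqG]
    simp only
    rw [mul_comm]
    exact mul_le_mul_of_nonneg_right hlog2 (by linarith)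
  · simp only
    rw [le_div_iff₀ (by positivity)]
    rcases le_or_gt t 0 with ht0 | ht0
    · have : (0:ℝ) < 2 ^ (Nat.log 2 q) := by positivity
      nlinarith
    · have h3 := hμ i0 j0
      rw [hcast, hqG] at h3
      rw [hcast] at ht
      have h4 : (g.natAbs : ℝ) * 2 ^ (Nat.log 2 q) ≤ μ :=
        (mul_le_mul_of_nonneg_left hlog1 (by linarith)).trans h3
      have h5 := mul_le_mul_of_nonneg_left h4 ht0.le
      have h6 : (t * 2 ^ (Nat.log 2 q)) * g.natAbs ≤ B ^ 2 * g.natAbs := by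
        refine le_trans (le_of_eq ?_) (h5.trans ht)
        ring
      exact le_of_mul_le_mul_right h6 (by linarith)

/-- The bound for a fixed first vector. -/
theorem per_x (hk : Fintype.card ι = 3) {B a : ℝ} {x : ι → ℤ} (hb : Bal B a x)
    (hx : Sz B x) (hp : Prim x) (ha : 1 ≤ a) (haB : a ≤ B) (Y : Finset (ι → ℤ))
    (τ : (ι → ℤ) → ℝ)
    (hY : ∀ y ∈ Y, (∀ i, |(y i : ℝ)| ≤ B) ∧ (∃ i j, mn x y i j ≠ 0) ∧
      ∃ (g : ℤ) (μ : ℝ), (∀ i j, g ∣ mn x y i j) ∧ (∀ i j, |(mn x y i j : ℝ)| ≤ μ) ∧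
        τ y * μ ≤ B ^ 2 * |(g : ℝ)|) :
    ∑ y ∈ Y, τ y ≤ 102 * 3240 ^ 2 * (a ^ 2 * B ^ 2 * (1 + Real.log B)) := by
  classical
  have hB : 1 ≤ B := ha.trans haB
  have hlogB : 0 ≤ Real.log B := Real.log_nonneg hB
  have hkey : ∀ y, ∃ k : ℕ × ℕ, y ∈ Y → (1 ≤ k.2 ∧ (2 : ℝ) ^ k.1 * k.2 ≤ 2 * B ^ 2 ∧
      (∀ i j, (k.2 : ℤ) ∣ mn x y i j) ∧
      (∀ i j, |(mn x y i j : ℝ)| ≤ 2 ^ (k.1 + 1) * k.2) ∧ τ y ≤ B ^ 2 / 2 ^ k.1) := by
    intro y
    by_cases hy : y ∈ Y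
    · obtain ⟨k, hk⟩ := exists_key hx.1 (hY y hy).1 (hY y hy).2.1 (hY y hy).2.2
      exact ⟨k, fun _ => hk⟩
    · exact ⟨(0, 0), fun h => absurd h hy⟩
  choose κ hκ using hkey
  obtain ⟨J, hJ⟩ : ∃ J : ℕ, Nat.log 2 ⌊2 * B ^ 2⌋₊ = J := ⟨_, rfl⟩
  have hfl : (1 : ℕ) ≤ ⌊2 * B ^ 2⌋₊ := Nat.le_floor (by push_cast; nlinarith)
  have hJb : (J : ℝ) + 1 ≤ 3 * (1 + Real.log B) := by
    have h1 : (2 : ℝ) ^ J ≤ 2 * B ^ 2 := by
      have h2 : 2 ^ J ≤ ⌊2 * B ^ 2⌋₊ := by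
        rw [← hJ]; exact Nat.pow_log_le_self 2 (by omega)
      have h3 : ((2 ^ J : ℕ) : ℝ) ≤ ((⌊2 * B ^ 2⌋₊ : ℕ) : ℝ) := by exact_mod_cast h2
      push_cast at h3
      exact h3.trans (Nat.floor_le (by positivity))
    have h4 := Real.log_le_log (by positivity) h1
    rw [Real.log_pow, Real.log_mul (by norm_num) (by positivity), Real.log_pow] at h4
    have h5 := Real.log_two_gt_d9
    have h6 : (0:ℝ) ≤ J := Nat.cast_nonneg J
    push_cast at h4
    by_contra hcon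
    push Not at hcon
    have h7 : (2 + 3 * Real.log B - (1:ℝ)) * Real.log 2 < J * Real.log 2 := by
      apply mul_lt_mul_of_pos_right _ (by linarith)
      linarith
    nlinarith
  set K : Finset (Σ _ : ℕ, ℕ) :=
    (Finset.range (J + 1)).sigma (fun j => Finset.Icc 1 ⌊2 * B ^ 2 / 2 ^ j⌋₊) with hK
  have hmaps : ∀ y ∈ Y, (⟨(κ y).1, (κ y).2⟩ : Σ _ : ℕ, ℕ) ∈ K := by
    intro y hy
    obtain ⟨h1, h2, -⟩ := hκ y hy
    rw [hK, Finset.mem_sigma]
    have h1r : (1 : ℝ) ≤ (κ y).2 := by exact_mod_cast h1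
    refine ⟨?_, ?_⟩
    · rw [Finset.mem_range, Nat.lt_succ_iff, ← hJ]
      apply Nat.le_log_of_pow_le (by norm_num)
      apply Nat.le_floor
      push_cast
      refine le_trans ?_ h2
      have : (0:ℝ) < 2 ^ (κ y).1 := by positivity
      nlinarith
    · rw [Finset.mem_Icc]
      refine ⟨h1, Nat.le_floor ?_⟩
      rw [le_div_iff₀ (by positivity)]
      linarith
  calc ∑ y ∈ Y, τ y ≤ ∑ y ∈ Y, B ^ 2 / 2 ^ (κ y).1 :=
        Finset.sum_le_sum (fun y hy => (hκ y hy).2.2.2.2)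
    _ = ∑ k ∈ K, ∑ y ∈ Y.filter (fun y => (⟨(κ y).1, (κ y).2⟩ : Σ _ : ℕ, ℕ) = k),
          B ^ 2 / 2 ^ (κ y).1 := (Finset.sum_fiberwise_of_maps_to hmaps _).symm
    _ ≤ ∑ k ∈ K, 17 * 3240 ^ 2 * a ^ 2 * 2 ^ k.1 := by
        refine Finset.sum_le_sum (fun k hkK => ?_)
        have h1 : ∀ y ∈ Y.filter (fun y => (⟨(κ y).1, (κ y).2⟩ : Σ _ : ℕ, ℕ) = k),
            B ^ 2 / 2 ^ (κ y).1 = B ^ 2 / 2 ^ k.1 := by
          intro y hy
          rw [Finset.mem_filter] at hy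
          rw [← hy.2]
        rw [Finset.sum_congr rfl h1, Finset.sum_const, nsmul_eq_mul]
        rw [hK, Finset.mem_sigma, Finset.mem_Icc] at hkK
        have h2 := fiber_bound hk hb hx hp ha haB hkK.2.1 k.1
          (Y.filter (fun y => (⟨(κ y).1, (κ y).2⟩ : Σ _ : ℕ, ℕ) = k)) (by
            intro y hy
            rw [Finset.mem_filter] at hy
            obtain ⟨h1, h2, h3, h4, h5⟩ := hκ y hy.1
            rw [← hy.2]
            exact ⟨(hY y hy.1).1, h3, (hY y hy.1).2.1, h4⟩)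
        have h3 : (0:ℝ) < 2 ^ k.1 := by positivity
        calc _ ≤ 17 * (3240 * (a * 2 ^ k.1 / B)) ^ 2 * (B ^ 2 / 2 ^ k.1) :=
              mul_le_mul_of_nonneg_right h2 (by positivity)
          _ = _ := by field_simp
    _ = ∑ j ∈ Finset.range (J + 1), (⌊2 * B ^ 2 / 2 ^ j⌋₊ : ℝ) *
          (17 * 3240 ^ 2 * a ^ 2 * 2 ^ j) := by
        rw [hK, Finset.sum_sigma]
        refine Finset.sum_congr rfl (fun j _ => ?_)
        simp only
        rw [Finset.sum_const, nsmul_eq_mul, Nat.card_Icc, Nat.add_sub_cancel]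
    _ ≤ ∑ j ∈ Finset.range (J + 1), 34 * 3240 ^ 2 * a ^ 2 * B ^ 2 := by
        refine Finset.sum_le_sum (fun j _ => ?_)
        have h1 : (⌊2 * B ^ 2 / 2 ^ j⌋₊ : ℝ) ≤ 2 * B ^ 2 / 2 ^ j := Nat.floor_le (by positivity)
        calc _ ≤ 2 * B ^ 2 / 2 ^ j * (17 * 3240 ^ 2 * a ^ 2 * 2 ^ j) :=
              mul_le_mul_of_nonneg_right h1 (by positivity)
          _ = _ := by field_simp; ring
    _ = ((J : ℝ) + 1) * (34 * 3240 ^ 2 * a ^ 2 * B ^ 2) := by
        rw [Finset.sum_const, Finset.card_range, nsmul_eq_mul]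
        push_cast; ring
    _ ≤ 3 * (1 + Real.log B) * (34 * 3240 ^ 2 * a ^ 2 * B ^ 2) :=
        mul_le_mul_of_nonneg_right hJb (by positivity)
    _ = _ := by ring

theorem tau_sum_three {ι : Type*} [Fintype ι] (hk : Fintype.card ι = 3) :
    ∃ C : ℝ, 0 < C ∧ ∀ (B a : ℝ), 1 ≤ a → a ≤ B →
      ∀ (Tl : Finset ((ι → ℤ) × (ι → ℤ))) (τ : (ι → ℤ) × (ι → ℤ) → ℝ),
      (∀ p ∈ Tl, Sz B p.1 ∧ Prim p.1 ∧ Bal B a p.1 ∧ (∀ i, |(p.2 i : ℝ)| ≤ B) ∧
        (∃ i j, mn p.1 p.2 i j ≠ 0) ∧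
        ∃ (g : ℤ) (μ : ℝ), (∀ i j, g ∣ mn p.1 p.2 i j) ∧ (∀ i j, |(mn p.1 p.2 i j : ℝ)| ≤ μ) ∧
          τ p * μ ≤ B ^ 2 * |(g : ℝ)|) →
      ∑ p ∈ Tl, τ p ≤ C * a ^ 2 * B ^ 5 * (1 + Real.log B) := by
  classical
  refine ⟨27 * (102 * 3240 ^ 2), by norm_num, ?_⟩
  intro B a ha haB Tl τ hT
  have hB : 1 ≤ B := ha.trans haB
  have hlogB : 0 ≤ Real.log B := Real.log_nonneg hB
  set X : Finset (ι → ℤ) := Fintype.piFinset (fun _ : ι => Finset.Icc (-(⌊B⌋₊ : ℤ)) ⌊B⌋₊) with hX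
  have hXcard : (X.card : ℝ) ≤ 27 * B ^ 3 := by
    have h1 : X.card = (2 * ⌊B⌋₊ + 1) ^ 3 := by
      rw [hX, Fintype.card_piFinset]
      simp only [Int.card_Icc]
      rw [Finset.prod_const, Finset.card_univ, hk]
      congr 1
      omega
    rw [h1]
    push_cast
    have h2 : (⌊B⌋₊ : ℝ) ≤ B := Nat.floor_le (by linarith)
    have h3 : (2 * (⌊B⌋₊ : ℝ) + 1) ≤ 3 * B := by linarith
    calc (2 * (⌊B⌋₊ : ℝ) + 1) ^ 3 ≤ (3 * B) ^ 3 := pow_le_pow_left₀ (by positivity) h3 3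
      _ = _ := by ring
  have hmaps : ∀ p ∈ Tl, p.1 ∈ X := by
    intro p hp
    rw [hX, Fintype.mem_piFinset]
    intro i
    rw [Finset.mem_Icc, ← abs_le, Int.abs_eq_natAbs]
    have h1 := (hT p hp).1.1 i
    have h2 : (((p.1 i).natAbs : ℕ) : ℝ) ≤ B := by
      rw [Nat.cast_natAbs, Int.cast_abs]; exact h1
    exact_mod_cast Nat.le_floor h2
  rw [← Finset.sum_fiberwise_of_maps_to hmaps]
  have hfib : ∀ x ∈ X, ∑ p ∈ Tl.filter (fun p => p.1 = x), τ p ≤
      102 * 3240 ^ 2 * (a ^ 2 * B ^ 2 * (1 + Real.log B)) := by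
    intro x _
    rcases (Tl.filter (fun p => p.1 = x)).eq_empty_or_nonempty with h0 | ⟨p₀, hp₀⟩
    · rw [h0, Finset.sum_empty]; positivity
    rw [Finset.mem_filter] at hp₀
    have h1 := hT p₀ hp₀.1
    rw [hp₀.2] at h1
    have h2 := Pool.Agent.Y804.TauThree.per_x hk h1.2.2.1 h1.1 h1.2.1 ha haB
      ((Tl.filter (fun p => p.1 = x)).image Prod.snd) (fun y => τ (x, y)) (by
        intro y hy
        rw [Finset.mem_image] at hy
        obtain ⟨p, hp, rfl⟩ := hy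
        rw [Finset.mem_filter] at hp
        have h3 := hT p hp.1
        obtain ⟨hp1, hp2⟩ := hp
        subst hp2
        exact ⟨h3.2.2.2.1, h3.2.2.2.2.1, h3.2.2.2.2.2⟩)
    rw [Finset.sum_image] at h2
    · refine le_trans (le_of_eq ?_) h2
      refine Finset.sum_congr rfl (fun p hp => ?_)
      rw [Finset.mem_filter] at hp
      rw [← hp.2]
    · intro p hp q hq hpq
      have hp' := (Finset.mem_filter.mp hp).2
      have hq' := (Finset.mem_filter.mp hq).2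
      exact Prod.ext (hp'.trans hq'.symm) hpq
  refine (Finset.sum_le_sum hfib).trans ?_
  rw [Finset.sum_const, nsmul_eq_mul]
  calc (X.card : ℝ) * (102 * 3240 ^ 2 * (a ^ 2 * B ^ 2 * (1 + Real.log B)))
      ≤ 27 * B ^ 3 * (102 * 3240 ^ 2 * (a ^ 2 * B ^ 2 * (1 + Real.log B))) :=
        mul_le_mul_of_nonneg_right hXcard (by positivity)
    _ = _ := by ring

end Pool.Agent.Y804.TauThree
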